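import Pool.Agent.H673R3.UC.R1
import Pool.Agent.H620R2.GaugeQ.Q8
import Pool.Agent.W938.QM.Hybrid

/-!
# Quantum computations at the hidden blocks
-/

set_option autoImplicit false

namespace Pool.Agent.TH682.QU

open MeasureTheory Pool.Agent.NPC Pool.Agent.H628R3.RO Pool.Agent.H673R3.UC
open Pool.Agent.H620R2.Gauge (Gate accProb)

/-- An oracle `O A` which is made from the oracle `A` and from an oracle `k A`: its answers can
only change at `ψ q` if the answer of `A` changes at `q`, and at `χ y` if the answer of `k A`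
changes at `y`. -/
structure Emb (k : Oracle → Oracle) where
  /-- the oracle -/
  O : Oracle → Oracle
  /-- the place of a question to `A` -/
  ψ : List Bool → List Bool
  /-- the place of a question to `k A` -/
  χ : List Bool → List Bool
  inj : Function.Injective ψ
  inj' : Function.Injective χ
  len : ∀ q, q.length ≤ (ψ q).length
  len' : ∀ q, q.length ≤ (χ q).length
  dif : ∀ A A' z, O A z ≠ O A' z →
    (∃ q, z = ψ q ∧ A q ≠ A' q) ∨ (∃ y, z = χ y ∧ k A y ≠ k A' y)

open Classical in
/-- The language of the verifier `V false`. -/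
noncomputable def KA (V : Bool → Alg) (p : Bool → Polynomial ℕ) (A : Oracle) : Oracle :=
  fun y => decide (Wit (V false) (p false) y A)

/-- The input `x` together with the time bound in unary. -/
def inp (pd : ℕ → ℕ) (x : List Bool) : List Bool := pairBits x (List.replicate (pd x.length) true)

theorem length_inp (pd : ℕ → ℕ) (x : List Bool) :
    (inp pd x).length = 2 * x.length + 1 + pd x.length := by
  unfold inp
  rw [length_pairBits, List.length_replicate]

/-- Every short string has a witness for exactly one of the two verifiers, and the quantum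
circuits `C` decide all instances of the stage. -/
def GoodQ (V : Bool → Alg) (p : Bool → Polynomial ℕ) (E : Emb (KA V p)) (pd : ℕ → ℕ)
    (C : List Bool → List Unit × List Gate) (n s : ℕ) : Set Oracle :=
  {A | (∀ y : List Bool, y.length ≤ 2 ^ n →
      (Wit (V true) (p true) y A ↔ ¬ Wit (V false) (p false) y A)) ∧
    ∀ b < BB s, ∀ j < KK s, A ∈ Others n s b j →
    (A ∉ NoHit (wl n) (half n s b (2 * j)) →
      2 / 3 ≤ accProb (E.O A) (C (inp pd (inst n s b j A)))) ∧
    (A ∈ NoHit (wl n) (half n s b (2 * j)) →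
      accProb (E.O A) (C (inp pd (inst n s b j A))) ≤ 1 / 3)}

/-- The time bound which is used: `2 ^ (√(n + 2) + 1)` at instances of stage `n`. -/
def Slow (P : Polynomial ℕ) (pd : ℕ → ℕ) : Prop :=
  ∀ n m, m ≤ P.eval n → pd m ≤ 2 ^ (Nat.sqrt (n + 2) + 1)

theorem sqrt_le (n : ℕ) : Nat.sqrt (n + 2) ≤ n + 1 := by
  have h1 : Nat.sqrt (n + 2) < n + 2 := Nat.sqrt_lt_self (by omega)
  omega

theorem slow_le {P : Polynomial ℕ} {pd : ℕ → ℕ} (h : Slow P pd) {n m : ℕ} (hm : m ≤ P.eval n) :
    pd m ≤ 4 * 2 ^ n := by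
  refine (h n m hm).trans ?_
  calc 2 ^ (Nat.sqrt (n + 2) + 1) ≤ 2 ^ (n + 2) :=
        Nat.pow_le_pow_right (by norm_num) (by have := sqrt_le n; omega)
    _ = 4 * 2 ^ n := by rw [pow_add]; ring

theorem loc_GoodQ (V : Bool → Alg) (p : Bool → Polynomial ℕ) (E : Emb (KA V p)) {P : Polynomial ℕ}
    (hP : ∀ n s b j A, s ≤ n → b < BB s → j < KK s → (inst n s b j A).length ≤ P.eval n)
    {pd : ℕ → ℕ} (hpd : Slow P pd) {C : List Bool → List Unit × List Gate}
    (hC : PolyTime (fun z => bits (C z))) : ∃ b : Polynomial ℕ,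
    ∀ n s, s ≤ n → Loc {x | x.length ≤ b.eval (2 ^ n)} (GoodQ V p E pd C n s) := by
  obtain ⟨bc, hbc⟩ := Pool.Agent.H620R2.Gauge.circ_bound hC
  obtain ⟨S, hS⟩ := length_spotsB
  choose bw hbw using fun i => wit_congr (V i) (p i)
  set L : Polynomial ℕ := bc.comp (Polynomial.C 2 * P + 1 + Polynomial.C 4 * Polynomial.X) with hL
  refine ⟨S + L + (bw false + bw true) + (bw false).comp L,
    fun n s hs => loc_of_imp fun A A' h => ?_⟩
  have hn2 : n ≤ 2 ^ n := Nat.lt_two_pow_self.le
  have hLe : L.eval (2 ^ n) = bc.eval (2 * P.eval (2 ^ n) + 1 + 4 * 2 ^ n) := by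
    rw [hL]
    simp only [Polynomial.eval_add, Polynomial.eval_comp, Polynomial.eval_mul, Polynomial.eval_C,
      Polynomial.eval_one, Polynomial.eval_X]
  have h' : ∀ z : List Bool, z.length ≤ S.eval (2 ^ n) + L.eval (2 ^ n) +
      ((bw false).eval (2 ^ n) + (bw true).eval (2 ^ n)) + (bw false).eval (L.eval (2 ^ n)) →
      A z = A' z := by
    intro z hz
    apply h z
    change z.length ≤ _
    simpa only [Polynomial.eval_add, Polynomial.eval_comp] using hz
  have hspots : ∀ x ∈ spotsB n s, A x = A' x := by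
    intro x hx
    apply h'
    have h1 := hS n s hs x hx
    have h2 := eval_mono S hn2
    omega
  have hW : ∀ (i : Bool) (y : List Bool) (N : ℕ), y.length ≤ N → (bw i).eval N ≤
      S.eval (2 ^ n) + L.eval (2 ^ n) +
      ((bw false).eval (2 ^ n) + (bw true).eval (2 ^ n)) + (bw false).eval (L.eval (2 ^ n)) →
      (Wit (V i) (p i) y A ↔ Wit (V i) (p i) y A') := fun i y N hy hN =>
    ⟨hbw i A A' y _ hy fun z hz => h' z (hz.trans hN),
      hbw i A' A y _ hy fun z hz => (h' z (hz.trans hN)).symm⟩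
  have hkA : ∀ y : List Bool, y.length ≤ L.eval (2 ^ n) → KA V p A y = KA V p A' y := by
    intro y hy
    unfold KA
    exact decide_eq_decide.2 (hW false y _ hy (by omega))
  rintro ⟨hG0, hG⟩
  refine ⟨fun y hy => ?_, fun b hb j hj hO' => ?_⟩
  · rw [← hW true y _ hy (by omega), ← hW false y _ hy (by omega)]
    exact hG0 y hy
  have hO : A ∈ Others n s b j := (loc_Others hb A A' hspots).mpr hO'
  have hj2 : 2 * j < 2 * KK s := by omega
  have hinst : inst n s b j A = inst n s b j A' := inst_congr hb hspots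
  have hlen : (inst n s b j A).length ≤ P.eval n := hP n s b j A hs hb hj
  have hloc := loc_noHitHalf (n := n) hb hj2 A A' hspots
  have hacc : accProb (E.O A') (C (inp pd (inst n s b j A'))) =
      accProb (E.O A) (C (inp pd (inst n s b j A))) := by
    rw [← hinst]
    symm
    refine Pool.Agent.H620R2.Gauge.accProb_local (N := 0) fun q k hq y hy => ?_
    have hyL : y.length ≤ L.eval (2 ^ n) := by
      rw [hy, hLe]
      refine ((hbc (inp pd (inst n s b j A))).2 q k hq).trans (eval_mono bc ?_)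
      rw [length_inp]
      have h4 := slow_le hpd hlen
      have h5 := eval_mono P hn2
      omega
    by_contra hne
    rcases E.dif A A' y hne with ⟨q', hq', hne'⟩ | ⟨q', hq', hne'⟩
    · refine hne' (h' q' ?_)
      have h1 := E.len q'
      rw [← hq'] at h1
      omega
    · refine hne' (hkA q' ?_)
      have h1 := E.len' q'
      rw [← hq'] at h1
      omega
  rw [hacc]
  obtain ⟨h1, h2⟩ := hG b hb j hj hO
  exact ⟨fun h0 => h1 fun hA => h0 (hloc.mp hA), fun h0 => h2 (hloc.mpr h0)⟩

/-- Two states near to a third one are accepted with similar probabilities. -/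
theorem gap {m : ℕ} (P : (Fin m → Bool) → Prop) [DecidablePred P] (u v w : (Fin m → Bool) → ℝ)
    (hu : ∑ s, u s ^ 2 = 1) (hv : ∑ s, v s ^ 2 = 1) (h1 : ∑ s, (u s - w s) ^ 2 ≤ 1 / 150)
    (h2 : ∑ s, (v s - w s) ^ 2 ≤ 1 / 150) :
    (∑ s, if P s then u s ^ 2 else 0) - (∑ s, if P s then v s ^ 2 else 0) < 1 / 3 := by
  have h3 : (∑ s, if P s then u s ^ 2 else 0) - (∑ s, if P s then v s ^ 2 else 0) ≤
      ∑ s, (12 * (u s - w s) ^ 2 + 12 * (v s - w s) ^ 2 + (u s ^ 2 + v s ^ 2) / 12) := by
    rw [← Finset.sum_sub_distrib]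
    refine Finset.sum_le_sum fun s _ => ?_
    have h5 : u s ^ 2 - v s ^ 2 ≤
        12 * (u s - w s) ^ 2 + 12 * (v s - w s) ^ 2 + (u s ^ 2 + v s ^ 2) / 12 := by
      nlinarith [sq_nonneg (12 * (u s - v s) - (u s + v s)), sq_nonneg (u s - v s),
        sq_nonneg ((u s - w s) + (v s - w s))]
    have h6 : 0 ≤ 12 * (u s - w s) ^ 2 + 12 * (v s - w s) ^ 2 + (u s ^ 2 + v s ^ 2) / 12 := by
      positivity
    split_ifs
    · exact h5
    · linarith
  rw [Finset.sum_add_distrib, Finset.sum_add_distrib, ← Finset.mul_sum, ← Finset.mul_sum,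
    ← Finset.sum_div, Finset.sum_add_distrib, hu, hv] at h3
  linarith

end Pool.Agent.TH682.QU
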