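import Pool.Agent.TH682.QU.Num
import Pool.Agent.H673R3.UC.S2

/-!
# Circuits of subexponential size fail at many stages
-/

set_option autoImplicit false

namespace Pool.Agent.TH682.QU

open MeasureTheory Pool.Agent.NPC Pool.Agent.H628R3.RO Pool.Agent.H673R3.UC
open Pool.Agent.H620R2.Gauge (Gate accProb circAct initSt rd)
open Pool.Agent.W938.QM (wq wq_nonneg sum_wq_le circ_diff Cov qn numQ circ_norm)

theorem numQ_le_length : ∀ l : List Gate, numQ l ≤ l.length
  | [] => le_rfl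
  | g :: l => by
    have ih := numQ_le_length l
    rcases g with i | ⟨b, q, k⟩
    · simp only [numQ, List.length_cons]
      omega
    · cases b <;> simp only [numQ, List.length_cons] <;> omega

theorem spots_disjoint {m : ℕ} {κ κ' : Cand} (h : κ ≠ κ') : Disjoint (spots m κ) (spots m κ') := by
  rw [Finset.disjoint_left]
  intro x hx hx'
  rw [M2.mem_spots] at hx hx'
  obtain ⟨i, -, rfl⟩ := hx
  obtain ⟨i', -, h'⟩ := hx'
  obtain ⟨h1, -, h3⟩ := M2.pos_inj h'
  exact h (Prod.ext h1.symm h3.symm)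

/-- The initial state has norm one. -/
theorem init_norm (d : ℕ) : ∑ s : Fin d → Bool, initSt d s ^ 2 = 1 := by
  unfold initSt
  rw [Finset.sum_eq_single (fun _ => false)]
  · simp
  · intro s _ hs
    rw [if_neg hs]
    norm_num
  · intro h
    exact absurd (Finset.mem_univ _) h

open Classical in
/-- The candidates which matter for the answer at `z`, if the candidates in `Ty y` matter for the
answer of `k A` at `y`. -/
noncomputable def Aff {k : Oracle → Oracle} (E : Emb k) (m : ℕ) (W : Finset Cand)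
    (Ty : List Bool → Finset Cand) (z : List Bool) : Finset Cand :=
  W.filter fun κ => (∃ q ∈ spots m κ, z = E.ψ q) ∨ (∃ y, z = E.χ y ∧ κ ∈ Ty y)

theorem card_Aff {k : Oracle → Oracle} (E : Emb k) (m : ℕ) (W : Finset Cand)
    (Ty : List Bool → Finset Cand) {t : ℕ} (ht : ∀ y, (Ty y).card ≤ t) (z : List Bool) :
    (Aff E m W Ty z).card ≤ t + 1 := by
  classical
  have h1 : Aff E m W Ty z ⊆ (W.filter fun κ => ∃ y, z = E.χ y ∧ κ ∈ Ty y) ∪
      (W.filter fun κ => ∃ q ∈ spots m κ, z = E.ψ q) := by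
    intro κ hκ
    unfold Aff at hκ
    rw [Finset.mem_filter] at hκ
    rw [Finset.mem_union, Finset.mem_filter, Finset.mem_filter]
    rcases hκ.2 with h | h
    · exact Or.inr ⟨hκ.1, h⟩
    · exact Or.inl ⟨hκ.1, h⟩
  refine (Finset.card_le_card h1).trans ((Finset.card_union_le _ _).trans (Nat.add_le_add ?_ ?_))
  · by_cases h : ∃ y, z = E.χ y
    · obtain ⟨y, rfl⟩ := h
      refine (Finset.card_le_card ?_).trans (ht y)
      intro κ hκ
      rw [Finset.mem_filter] at hκ
      obtain ⟨y', h2, h3⟩ := hκ.2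
      rwa [E.inj' h2]
    · rw [Finset.filter_false_of_mem]
      · simp
      · rintro κ - ⟨y, h2, -⟩
        exact h ⟨y, h2⟩
  · rw [Finset.card_le_one]
    intro κ hκ κ' hκ'
    rw [Finset.mem_filter] at hκ hκ'
    obtain ⟨q, h2, h3⟩ := hκ.2
    obtain ⟨q', h2', h3'⟩ := hκ'.2
    have h4 : q = q' := E.inj (h3.symm.trans h3')
    subst h4
    by_contra hne
    exact Finset.disjoint_left.1 (spots_disjoint hne) h2 h2'

/-- There are few candidates which matter with large weight. -/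
theorem heavy {k : Oracle → Oracle} (E : Emb k) (m : ℕ) (W : Finset Cand)
    (Ty : List Bool → Finset Cand) {t : ℕ} (ht : ∀ y, (Ty y).card ≤ t) (Z : Finset (List Bool))
    (w : List Bool → ℝ) (hw : ∀ z, 0 ≤ w z) (θ : ℝ) [DecidablePred fun κ : Cand =>
      θ ≤ ∑ z ∈ Z, if κ ∈ Aff E m W Ty z then w z else 0] :
    ((W.filter fun κ => θ ≤ ∑ z ∈ Z, if κ ∈ Aff E m W Ty z then w z else 0).card : ℝ) * θ ≤
      (t + 1) * ∑ z ∈ Z, w z := by
  classical
  set T := W.filter fun κ => θ ≤ ∑ z ∈ Z, if κ ∈ Aff E m W Ty z then w z else 0 with hT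
  have h1 : (T.card : ℝ) * θ ≤ ∑ κ ∈ T, ∑ z ∈ Z, if κ ∈ Aff E m W Ty z then w z else 0 := by
    rw [← nsmul_eq_mul]
    exact Finset.card_nsmul_le_sum _ _ _ fun κ hκ => (Finset.mem_filter.1 hκ).2
  refine h1.trans ?_
  rw [Finset.sum_comm, Finset.mul_sum]
  refine Finset.sum_le_sum fun z _ => ?_
  rw [← Finset.sum_filter, Finset.sum_const, nsmul_eq_mul]
  refine mul_le_mul_of_nonneg_right ?_ (hw z)
  have h2 : (T.filter fun κ => κ ∈ Aff E m W Ty z).card ≤ t + 1 :=
    (Finset.card_le_card fun κ hκ => (Finset.mem_filter.1 hκ).2).trans (card_Aff E m W Ty ht z)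
  exact_mod_cast h2

/-- Planting a candidate which does not matter much hardly changes the state. -/
theorem dist {k : Oracle → Oracle} (E : Emb k) (m : ℕ) (W : Finset Cand)
    (Ty : List Bool → Finset Cand) (Z : Finset (List Bool)) {κ : Cand} (hκ : κ ∈ W) (B : Oracle)
    (l : List Gate) (hZ : ∀ q k', Sum.inr (true, q, k') ∈ l → ∀ z : List Bool,
      z.length = q.length → z ∈ Z)
    (hk : ∀ y, E.χ y ∈ Z → κ ∉ Ty y → k B y = k (plant (allSpots m {κ}) B) y) {d : ℕ}
    (ψ : (Fin d → Bool) → ℝ) :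
    ∑ s, (circAct (E.O B) l ψ s - circAct (E.O (plant (allSpots m {κ}) B)) l ψ s) ^ 2 ≤
      numQ l * (4 * ∑ z ∈ Z, if κ ∈ Aff E m W Ty z then wq (E.O B) l ψ z else 0) := by
  classical
  rw [← Finset.sum_filter]
  refine circ_diff _ _ _ l ?_ ψ
  intro q k' hq s hk' hne
  have hqZ : qn q k' s ∈ Z := by
    refine hZ q k' hq _ ?_
    unfold qn
    rw [dif_pos hk', List.length_map]
  rw [Finset.mem_filter]
  refine ⟨hqZ, ?_⟩
  unfold Aff
  rw [Finset.mem_filter]
  refine ⟨hκ, ?_⟩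
  rcases E.dif _ _ _ hne with ⟨q', hq', hne'⟩ | ⟨y, hy, hne'⟩
  · left
    refine ⟨q', ?_, hq'⟩
    by_contra hn
    apply hne'
    unfold plant
    rw [M2.allSpots_singleton, if_neg hn]
  · right
    refine ⟨y, hy, ?_⟩
    by_contra hn
    exact hne' (hk y (hy ▸ hqZ) hn)

/-- What a witness depends on. -/
theorem touched (V : Bool → Alg) (p : Bool → Polynomial ℕ) (m : ℕ) (W : Finset Cand) (R t : ℕ)
    (ht : ∀ i, (V i).p.eval (2 * R + 1 + (p i).eval R) ≤ t) (B : Oracle) (y : List Bool) :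
    ∃ Ty : Finset Cand, Ty.card ≤ t ∧ (y.length ≤ R → ∀ i, Wit (V i) (p i) y B →
      ∃ i, Wit (V i) (p i) y B ∧ ∀ κ ∈ W, κ ∉ Ty →
        Wit (V i) (p i) y (plant (allSpots m {κ}) B)) := by
  by_cases h : y.length ≤ R ∧ ∃ i, Wit (V i) (p i) y B
  · obtain ⟨hy, i, w, hw1, hw2⟩ := h
    obtain ⟨qV, hqV⟩ := (V i).out_local
    obtain ⟨Q, hQ1, -, hQ2⟩ := hqV B (pairBits y w)
    obtain ⟨T, hT1, hT2⟩ := touch W m Q
    refine ⟨T, hT1.trans (hQ1.trans (le_trans (eval_mono _ ?_) (ht i))), fun _ _ _ =>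
      ⟨i, ⟨w, hw1, hw2⟩, fun κ hκ hκT => ⟨w, hw1, ?_⟩⟩⟩
    · rw [length_pairBits]
      have h2 := eval_mono (p i) hy
      omega
    · rw [hQ2 _ fun q hq => hT2 {κ} (Finset.singleton_subset_iff.2 hκ)
        (Finset.disjoint_singleton_left.2 hκT) B q hq]
      exact hw2
  · exact ⟨∅, by simp, fun hy i hi => absurd ⟨hy, i, hi⟩ h⟩

theorem key_T (V : Bool → Alg) (p : Bool → Polynomial ℕ) (E : Emb (KA V p)) {P : Polynomial ℕ}
    (hP : ∀ n s b j A, s ≤ n → b < BB s → j < KK s → (inst n s b j A).length ≤ P.eval n)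
    {pd : ℕ → ℕ} (hpd : Slow P pd) {C : List Bool → List Unit × List Gate}
    (hC : PolyTime (fun z => bits (C z))) :
    ∃ n0, ∀ n ≥ n0, ∀ s, 4 ≤ s → s ≤ n → ∀ t < n, ∀ η : Set Oracle, Loc {x | x.length ≤ t} η →
    ll s * (7 / 8 * prob η - prob (η ∩ (Bad n s ∩ ErrN V p n)) / prob (Bad n s)) ≤
      prob (η ∩ (GoodQ V p E pd C n s)ᶜ) := by
  classical
  obtain ⟨bE, hbE⟩ := loc_ErrN V p
  obtain ⟨bc, hbc⟩ := Pool.Agent.H620R2.Gauge.circ_bound hC
  obtain ⟨bG, hbG⟩ := loc_GoodQ V p E hP hpd hC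
  set tp : Polynomial ℕ := ∑ i : Bool, (V i).p.comp
    (Polynomial.C 2 * (bc + 1) + 1 + (p i).comp (bc + 1)) with htp
  obtain ⟨n0, hn0⟩ := num' P (Polynomial.C 600 * (bc + 1) ^ 2 * (tp + 1))
  refine ⟨n0, fun n hn s hs4 hsn t ht η hη => ?_⟩
  have hnum := hn0 n hn
  set X : ℕ := 2 * P.eval n + 1 + 2 ^ (Nat.sqrt (n + 2) + 1) with hX
  set R : ℕ := bc.eval X + 1 with hR
  have hR1 : 1 ≤ R := by omega
  set t0 : ℕ := tp.eval X with ht0
  have hnum' : 600 * R ^ 2 * (t0 + 1) ≤ 2 ^ n := by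
    refine le_trans (le_of_eq ?_) hnum
    simp only [Polynomial.eval_mul, Polynomial.eval_C, Polynomial.eval_pow, Polynomial.eval_add,
      Polynomial.eval_one]
    rw [hR, ht0]
  have hRn : R ≤ 2 ^ n := by
    refine le_trans ?_ hnum'
    have h1 : R ≤ 600 * R ^ 2 := by nlinarith
    exact h1.trans (Nat.le_mul_of_pos_right _ (Nat.succ_pos _))
  have ht0V : ∀ i, (V i).p.eval (2 * R + 1 + (p i).eval R) ≤ t0 := by
    intro i
    rw [ht0, htp, Polynomial.eval_finsetSum]
    have h1 := Finset.single_le_sum (f := fun i : Bool =>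
      ((V i).p.comp (Polynomial.C 2 * (bc + 1) + 1 + (p i).comp (bc + 1))).eval X)
      (fun _ _ => Nat.zero_le _) (Finset.mem_univ i)
    refine le_trans (le_of_eq ?_) h1
    simp only [Polynomial.eval_comp, Polynomial.eval_add, Polynomial.eval_mul, Polynomial.eval_C,
      Polynomial.eval_one]
    rw [hR]
  refine key_blocksN (k := bE.eval (2 ^ n) + bG.eval (2 ^ n)) (t := 600 * R ^ 2 * (t0 + 1)) hs4 hsn
    ht hη
    (Loc.mono (fun x hx => by simp only [Set.mem_ofPred_eq] at hx ⊢; omega) (hbG n s hsn))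
    (Loc.mono (fun x hx => by simp only [Set.mem_ofPred_eq] at hx ⊢; omega) (hbE n)) hnum' ?_
  intro b hb j hj B hBO hBZ
  set m := wl n with hm
  set W := pair n s b j with hWdef
  set c : List Unit × List Gate := C (inp pd (inst n s b j B)) with hc
  set Z : Finset (List Bool) := (List.finite_length_le Bool R).toFinset with hZdef
  have hZ : ∀ z : List Bool, z ∈ Z ↔ z.length ≤ R := by
    intro z
    rw [hZdef, Set.Finite.mem_toFinset]
    rfl
  set B' : Cand → Oracle := fun κ => plant (allSpots m {κ}) B with hB'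
  choose Ty hTy1 hTy2 using fun (κ : Cand) (y : List Bool) => touched V p m W R t0 ht0V (B' κ) y
  have hinp : (inp pd (inst n s b j B)).length ≤ X := by
    rw [length_inp]
    have h4 := hP n s b j B hsn hb hj
    have h5 := hpd n _ h4
    omega
  have hnumQ : (numQ c.2 : ℝ) ≤ R := by
    have h7 : numQ c.2 ≤ R := by
      rw [hR]
      exact (numQ_le_length c.2).trans ((hbc (inp pd (inst n s b j B))).1.trans
        ((eval_mono bc hinp).trans (Nat.le_succ _)))
    exact_mod_cast h7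
  have hcZ : ∀ q k', Sum.inr (true, q, k') ∈ c.2 → ∀ z : List Bool,
      z.length = q.length → z ∈ Z := by
    intro q k' hq z hz
    rw [hZ, hz, hR]
    exact ((hbc (inp pd (inst n s b j B))).2 q k' hq).trans
      ((eval_mono bc hinp).trans (Nat.le_succ _))
  have hR0 : (0 : ℝ) < R := by exact_mod_cast hR1
  set w : Cand → Cand → ℝ := fun κ κ' => ∑ z ∈ Z, if κ' ∈ Aff E m W (Ty κ) z then
    wq (E.O (B' κ)) c.2 (initSt c.1.length) z else 0 with hw
  have hw0 : ∀ κ κ', 0 ≤ w κ κ' := fun κ κ' => Finset.sum_nonneg fun z _ => by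
    split_ifs
    · exact wq_nonneg _ _ _ z
    · exact le_rfl
  refine ⟨∅, fun κ => W.filter fun κ' => 1 / (600 * (R : ℝ)) ≤ w κ κ', by simp, fun κ => ?_, ?_⟩
  · have h1 := heavy E m W (Ty κ) (hTy1 κ) Z (wq (E.O (B' κ)) c.2 (initSt c.1.length))
      (wq_nonneg _ _ _) (1 / (600 * (R : ℝ)))
    have h3 := sum_wq_le (E.O (B' κ)) Z c.2 (initSt c.1.length)
    rw [init_norm, mul_one] at h3
    have h4 : ((W.filter fun κ' => 1 / (600 * (R : ℝ)) ≤ w κ κ').card : ℝ) *
        (1 / (600 * (R : ℝ))) ≤ (t0 + 1) * R := by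
      refine h1.trans ?_
      have : (0 : ℝ) ≤ (t0 : ℝ) + 1 := by positivity
      exact mul_le_mul_of_nonneg_left (h3.trans hnumQ) this
    rw [mul_one_div, div_le_iff₀ (by positivity)] at h4
    have h5 : ((W.filter fun κ' => 1 / (600 * (R : ℝ)) ≤ w κ κ').card : ℝ) ≤
        ((600 * R ^ 2 * (t0 + 1) : ℕ) : ℝ) := by
      push_cast
      linarith
    exact_mod_cast h5
  · intro κ hκ κ' hκ' _ _ hκ'T hκT hG hG'
    by_contra hErr
    have hκW : κ ∈ W := Finset.mem_union_left _ hκ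
    have hκ'W : κ' ∈ W := Finset.mem_union_right _ hκ'
    have hnκ' : κ' ∉ half n s b (2 * j) := fun h =>
      Finset.disjoint_left.1 (half_disjoint n s b j) h hκ'
    have h3 : plant (allSpots m {κ, κ'}) B = plant (allSpots m {κ'}) (B' κ) := by
      rw [show ({κ, κ'} : Finset Cand) = {κ} ∪ {κ'} from rfl]
      exact plant_union m _ _ B
    have h4 : plant (allSpots m {κ, κ'}) B = plant (allSpots m {κ}) (B' κ') := by
      rw [show ({κ, κ'} : Finset Cand) = {κ} ∪ {κ'} from rfl, Finset.union_comm]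
      exact plant_union m _ _ B
    set D := plant (allSpots m {κ, κ'}) B with hD
    have hDE : ∀ y : List Bool, y.length ≤ R → ¬ (Wit (V false) (p false) y D ∧
        Wit (V true) (p true) y D) := by
      rintro y hy ⟨e1, e2⟩
      refine hErr ⟨y, hy.trans hRn, fun i => ?_⟩
      cases i
      · exact e1
      · exact e2
    -- one step
    have hd : ∀ ρ ρ' : Cand, ρ' ∈ W → B' ρ ∈ GoodQ V p E pd C n s →
        D = plant (allSpots m {ρ'}) (B' ρ) → w ρ ρ' < 1 / (600 * (R : ℝ)) →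
        ∑ s, (circAct (E.O (B' ρ)) c.2 (initSt c.1.length) s -
          circAct (E.O D) c.2 (initSt c.1.length) s) ^ 2 ≤ 1 / 150 := by
      intro ρ ρ' hρ' hρG hρD hlight
      have h1 := dist E m W (Ty ρ) Z hρ' (B' ρ) c.2 hcZ (fun y hy hyT => by
        have hyR : y.length ≤ R := (E.len' y).trans ((hZ _).1 hy)
        rw [← hρD]
        unfold KA
        have hex := hρG.1 y (hyR.trans hRn)
        have hsome : ∃ i, Wit (V i) (p i) y (B' ρ) := by
          by_cases hf : Wit (V false) (p false) y (B' ρ)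
          · exact ⟨false, hf⟩
          · exact ⟨true, hex.2 hf⟩
        obtain ⟨i0, hi0⟩ := hsome
        obtain ⟨i, hi1, hi2⟩ := hTy2 ρ y hyR i0 hi0
        have hi3 := hi2 ρ' hρ' hyT
        rw [← hρD] at hi3
        refine decide_eq_decide.2 ?_
        cases i
        · exact iff_of_true hi1 hi3
        · exact iff_of_false (hex.1 hi1) fun hf => hDE y hyR ⟨hf, hi3⟩)
        (initSt c.1.length)
      rw [← hρD] at h1
      refine h1.trans ?_
      calc (numQ c.2 : ℝ) * (4 * w ρ ρ') ≤ R * (4 * (1 / (600 * (R : ℝ)))) :=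
            mul_le_mul hnumQ (by linarith) (by have := hw0 ρ ρ'; linarith) hR0.le
        _ = 1 / 150 := by
            field_simp
            norm_num
    have hinst : ∀ ρ ∈ W, inst n s b j (B' ρ) = inst n s b j B :=
      fun ρ hρ => inst_plant hj (Finset.singleton_subset_iff.2 hρ) B
    have hOth : ∀ ρ ∈ W, B' ρ ∈ Others n s b j := fun ρ hρ =>
      (plant_Others hj (Finset.singleton_subset_iff.2 hρ) B).mpr hBO
    have hacc : 2 / 3 ≤ accProb (E.O (B' κ)) c := by
      have h1 := (hG.2 b hb j hj (hOth κ hκW)).1 fun hno =>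
        hno κ hκ (M2.hit_plant_self (Finset.mem_singleton_self κ) B)
      rwa [hinst κ hκW] at h1
    have hrej : accProb (E.O (B' κ')) c ≤ 1 / 3 := by
      have h1 := (hG'.2 b hb j hj (hOth κ' hκ'W)).2 fun ρ hρ hhit => by
        have hne : ρ ∉ ({κ'} : Finset Cand) := by
          rw [Finset.mem_singleton]
          rintro rfl
          exact hnκ' hρ
        exact hBZ ρ (Finset.mem_union_left _ hρ) ((M2.hit_plant hne B).1 hhit)
      rwa [hinst κ' hκ'W] at h1
    have hl1 : w κ κ' < 1 / (600 * (R : ℝ)) := by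
      by_contra hcon
      exact hκ'T (Finset.mem_filter.2 ⟨hκ'W, not_lt.1 hcon⟩)
    have hl2 : w κ' κ < 1 / (600 * (R : ℝ)) := by
      by_contra hcon
      exact hκT (Finset.mem_filter.2 ⟨hκW, not_lt.1 hcon⟩)
    have hgap := gap (fun s : Fin c.1.length → Bool => rd s 0 = true)
      (circAct (E.O (B' κ)) c.2 (initSt c.1.length))
      (circAct (E.O (B' κ')) c.2 (initSt c.1.length))
      (circAct (E.O D) c.2 (initSt c.1.length))
      (by rw [circ_norm, init_norm]) (by rw [circ_norm, init_norm])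
      (hd κ κ' hκ'W hG h3 hl1) (hd κ' κ hκW hG' h4 hl2)
    unfold accProb at hacc hrej
    linarith

end Pool.Agent.TH682.QU
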