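import Pool.Agent.TH682.QU.Key
import Pool.Agent.H673R3.UC.Z1

/-!
# Unambiguous computations relative to a random oracle are not quantum computations
-/

set_option autoImplicit false

namespace Pool.Agent.TH682.QU

open MeasureTheory Pool.Agent.NPC Pool.Agent.H628R3.RO Pool.Agent.H673R3.UC
open Pool.Agent.H620R2.Gauge (Gate accProb IsBQP)
open Pool.Agent.W938.QM (join)

/-- Bounded-error quantum time `2 ^ O(n ^ c)` relative to the oracle `O`: the circuit for the input
`x` is computed in time polynomial in `2 ^ (|x| ^ c)`, and in particular it has at most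
`2 ^ O(|x| ^ c)` gates. -/
def IsBQSub (c : ℝ) (O : Oracle) (L : Set (List Bool)) : Prop :=
  ∃ C : List Bool → List Unit × List Gate, PolyTime (fun z => bits (C z)) ∧
    ∀ x : List Bool,
      (x ∈ L → 2 / 3 ≤
        accProb O (C (pairBits x (List.replicate ⌊(2 : ℝ) ^ ((x.length : ℝ) ^ c)⌋₊ true)))) ∧
      (x ∉ L →
        accProb O (C (pairBits x (List.replicate ⌊(2 : ℝ) ^ ((x.length : ℝ) ^ c)⌋₊ true))) ≤ 1 / 3)

/-- Quantum polynomial time is contained in quantum time `2 ^ O(n ^ c)`. -/
theorem bqsub_of_bqp {O : Oracle} {L : Set (List Bool)} (c : ℝ) (h : IsBQP O L) :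
    IsBQSub c O L := by
  obtain ⟨C, hC, hx⟩ := h
  refine ⟨fun z => C (unpair z).1, ?_, fun x => ?_⟩
  · have h1 : NPC.Poly (fun z : List Bool => bits (C (unpair z).1)) :=
      (Pool.Agent.H622R2.poly_of_polyTime hC).comp (NPC.Poly.fst poly_unpair)
    exact Pool.Agent.H622R2.polyTime_of_poly_list h1
  · simp only [unpair_pairBits]
    exact hx x

open Classical in
/-- A language as an oracle. -/
noncomputable def chi (K : Set (List Bool)) : Oracle := fun y => decide (y ∈ K)

/-- The three oracles. -/
def emb (k : Oracle → Oracle) (B : Oracle) : Option Bool → Emb k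
  | none =>
    { O := fun A => A
      ψ := fun q => q
      χ := fun q => q
      inj := Function.injective_id
      inj' := Function.injective_id
      len := fun _ => le_rfl
      len' := fun _ => le_rfl
      dif := fun _ _ z h => Or.inl ⟨z, rfl, h⟩ }
  | some false =>
    { O := fun A => join A B
      ψ := fun q => false :: q
      χ := fun q => q
      inj := fun _ _ h => (List.cons.inj h).2
      inj' := Function.injective_id
      len := fun q => by simp
      len' := fun _ => le_rfl
      dif := fun A A' z h => by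
        rcases z with _ | ⟨b, z⟩
        · exact absurd rfl h
        · cases b
          · exact Or.inl ⟨z, rfl, h⟩
          · exact absurd rfl h }
  | some true =>
    { O := fun A => join (join A (k A)) B
      ψ := fun q => false :: false :: q
      χ := fun q => false :: true :: q
      inj := fun _ _ h => (List.cons.inj (List.cons.inj h).2).2
      inj' := fun _ _ h => (List.cons.inj (List.cons.inj h).2).2
      len := fun q => by simp; omega
      len' := fun q => by simp; omega
      dif := fun A A' z h => by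
        rcases z with _ | ⟨b, z⟩
        · exact absurd rfl h
        · cases b
          · rcases z with _ | ⟨b, z⟩
            · exact absurd rfl h
            · cases b
              · exact Or.inl ⟨z, rfl, h⟩
              · exact Or.inr ⟨z, rfl, h⟩
          · exact absurd rfl h }

/-- The families of quantum circuits. -/
def QAlg : Type := {C : List Bool → List Unit × List Gate // PolyTime (fun z => bits (C z))}

instance : Countable QAlg := Pool.Agent.H620R2.Gauge.countable_circ.to_subtype

theorem core (V : Bool → Alg) (p : Bool → Polynomial ℕ) (E : Option Bool → Emb (KA V p))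
    {P : Polynomial ℕ}
    (hP : ∀ n s b j A, s ≤ n → b < BB s → j < KK s → (inst n s b j A).length ≤ P.eval n)
    {pd : ℕ → ℕ} (hpd : Slow P pd) {b : Polynomial ℕ}
    (hc : Check Bad (fun n _ => ErrN V p n) b) :
    ∀ᵐ A ∂randomOracle, (∀ n s, A ∉ Bad n s ∩ ErrN V p n) → ∃ (t : ℕ) (L : List (List Bool)),
      (∃ i0, ∀ i ≥ i0, A ∉ Inv (Tt b t i)
        (lev Bad (fun n _ => ErrN V p n) t L (Tt b t) i)) ∧
      ∀ (r : Option Bool × QAlg) (i0 : ℕ), ∃ i ≥ i0,
        A ∉ GoodQ V p (E r.1) pd r.2.1 (Tt b t i)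
          (lev Bad (fun n _ => ErrN V p n) t L (Tt b t) i) :=
  Pool.Agent.H583R2.NC.core_gen (R := Option Bool × QAlg) Bad Inv
    (fun n _ => ErrN V p n) (fun r => GoodQ V p (E r.1) pd r.2.1) spotsB
    (fun n s => lt_length_spotsB) (fun n n' s s' h => disjoint_spotsB n n' s s' h)
    loc_Bad (fun n s => measurableSet_of_loc (spotsB n s).finite_toSet (loc_Inv n s))
    b hc.locErr hc.locBad (fun r => loc_GoodQ V p (E r.1) hP hpd r.2.2)
    ee ll ee_nonneg summable_ee (fun s hs => ee_le hs)
    (fun n s hs hn => prob_Bad_le_ee hs hn) 200 (fun n s hs hn => prob_Inv_le hs hn)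
    (fun s hs => ⟨(1 / 2 : ℝ) * ((1 / 2 : ℝ) ^ (rr s + 12) / (rr s : ℝ) ^ 2), by
      have := Z1_rr_pos hs
      positivity, fun n hn => prob_Bad_pos hs hn⟩)
    ll_nonneg not_summable_ll
    (fun r => key_T V p (E r.1) hP hpd r.2.2) hc.le_eval

/-- With probability one, for every `K` in `NP ∩ coNP` some language in `UP ∩ coUP` is not in
bounded-error quantum time `2 ^ (n ^ c)`, not even with the help of `K` and of a further
oracle `B`. -/
theorem main : ∃ c : ℝ, 0 < c ∧ ∀ B : Oracle, ∀ᵐ A ∂randomOracle, ∀ K : Set (List Bool),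
    IsNP A K → IsCoNP A K → ∃ L : Set (List Bool), IsUP A L ∧ IsUP A Lᶜ ∧
      ¬ IsBQSub c A L ∧ ¬ IsBQSub c (join A B) L ∧
      ¬ IsBQSub c (join (join A (chi K)) B) L := by
  have := countable_poly2
  obtain ⟨P, hP⟩ := inst_length
  obtain ⟨c, hc0, hslow⟩ := slow_rpow P
  choose b hc using fun q : (Bool → Alg) × (Bool → Polynomial ℕ) => check_BN q.1 q.2
  refine ⟨c, hc0, fun B => ?_⟩
  have hall := ae_all_iff.2 fun q : (Bool → Alg) × (Bool → Polynomial ℕ) =>
    core q.1 q.2 (emb (KA q.1 q.2) B) hP (hslow c hc0 le_rfl) (hc q)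
  filter_upwards [hall] with A hA K hK0 hK1
  obtain ⟨W0, p0, ⟨M0, hM0⟩, hV0⟩ := hK0
  obtain ⟨W1, p1, ⟨M1, hM1⟩, hV1⟩ := hK1
  set V : Bool → Alg := fun i => bif i then M1 else M0 with hV
  set p : Bool → Polynomial ℕ := fun i => bif i then p1 else p0 with hp
  have hw0 : ∀ x, Wit (V false) (p false) x A ↔ x ∈ K := by
    intro x
    rw [hV0 x, Wit]
    refine exists_congr fun y => and_congr_right fun _ => ?_
    change M0.out A (pairBits x y) = some [true] ↔ _
    rw [hM0, Option.some.injEq]
  have hw1 : ∀ x, Wit (V true) (p true) x A ↔ x ∉ K := by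
    intro x
    rw [← Set.mem_compl_iff, hV1 x, Wit]
    refine exists_congr fun y => and_congr_right fun _ => ?_
    change M1.out A (pairBits x y) = some [true] ↔ _
    rw [hM1, Option.some.injEq]
  obtain ⟨t, S, ⟨i1, h1⟩, h2⟩ := hA (V, p) (by
    rintro n s ⟨_, x, _, h4⟩
    exact (hw1 x).1 (h4 true) ((hw0 x).1 (h4 false)))
  set f := schK Bad (fun n _ => ErrN V p n) (b (V, p)) t S (Tt (b (V, p)) t i1) with hf
  have hfn : ∀ n s, f n = some s → s ≤ n := fun n s h => schK_le h
  have hfA : ∀ n s, f n = some s → A ∉ Inv n s := by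
    intro n s h
    obtain ⟨h3, i, rfl, rfl⟩ := eq_of_schK h
    exact h1 i ((strictMono_Tt (b (V, p)) t).le_iff_le.1 h3)
  have hpf : Poly (fun x : List Unit => f x.length) :=
    Pool.Agent.H583R2.NC.p_schK' (hc (V, p)) t S _
  have hKA : KA V p A = chi K := by
    funext y
    unfold KA chi
    exact decide_eq_decide.2 (hw0 y)
  have key : ∀ i : Option Bool, ¬ IsBQSub c ((emb (KA V p) B i).O A) (LL f A) := by
    rintro i0 ⟨C, hC, hx⟩
    obtain ⟨i, hi, h3⟩ := h2 (i0, ⟨C, hC⟩) i1
    set n := Tt (b (V, p)) t i with hn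
    set s := lev Bad (fun n _ => ErrN V p n) t S (Tt (b (V, p)) t) i with hs
    have hfi : f n = some s := schK_Tt ((strictMono_Tt (b (V, p)) t).monotone hi)
    refine h3 ⟨fun y _ => ?_, fun bb hbb j hj ho => ⟨fun h => ?_, fun h => ?_⟩⟩
    · rw [hw0, hw1]
    · exact (hx (inst n s bb j A)).1 ((Z1_mem_LL_inst hfi hbb hj ho).2 h)
    · exact (hx (inst n s bb j A)).2 fun h4 => (Z1_mem_LL_inst hfi hbb hj ho).1 h4 h
  refine ⟨_, isUP_LL A f hpf hfn hfA, isUP_LLc A f hpf hfn hfA, key none, key (some false), ?_⟩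
  rw [← hKA]
  exact key (some true)

end Pool.Agent.TH682.QU
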