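import Pool.Agent.TH682.QU.Defs
import Pool.Agent.TH682.WC.Final

/-!
# Numerical estimates
-/

set_option autoImplicit false

namespace Pool.Agent.TH682.QU

open Pool.Agent.NPC

/-- The size of the circuits at stage `n` is subexponential. -/
theorem num (P Q : Polynomial ℕ) : ∃ n0, ∀ n ≥ n0,
    600 * (Q.eval (2 * P.eval n + 1 + 2 ^ (Nat.sqrt (n + 2) + 1)) + 1) ^ 2 ≤ 2 ^ n := by
  obtain ⟨d, hd⟩ := Pool.Agent.TH682.WC.poly_pow P
  obtain ⟨D, hD⟩ := Pool.Agent.TH682.WC.poly_pow Q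
  set M : ℕ := 2 * ((2 * d + 3) * D) + 12 with hM
  refine ⟨(M + 3) ^ 2, fun n hn => ?_⟩
  set S : ℕ := Nat.sqrt (n + 2) + 1 with hS
  have hS1 : 1 ≤ S := by omega
  have h1 : n + 2 ≤ S * S := (Nat.lt_succ_sqrt (n + 2)).le
  have h2 : (S - 1) * (S - 1) ≤ n + 2 := by
    rw [hS, Nat.add_sub_cancel]
    exact Nat.sqrt_le (n + 2)
  have h3 : M + 4 ≤ S := by
    have h4 : (M + 3) * (M + 3) ≤ n + 2 := by
      have : (M + 3) ^ 2 = (M + 3) * (M + 3) := sq _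
      omega
    have h5 : M + 3 ≤ Nat.sqrt (n + 2) := Nat.le_sqrt.2 h4
    omega
  clear_value S
  clear hS
  have hpS : S ≤ 2 ^ S := Nat.lt_two_pow_self.le
  have hp1 : n + 2 ≤ 2 ^ (2 * S) := by
    calc n + 2 ≤ S * S := h1
      _ ≤ 2 ^ S * 2 ^ S := Nat.mul_le_mul hpS hpS
      _ = 2 ^ (2 * S) := by rw [← pow_add]; congr 1; ring
  have hp2 : P.eval n ≤ 2 ^ (2 * d * S) := by
    calc P.eval n ≤ (n + 2) ^ d := hd n
      _ ≤ (2 ^ (2 * S)) ^ d := Nat.pow_le_pow_left hp1 d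
      _ = 2 ^ (2 * d * S) := by rw [← pow_mul]; congr 1; ring
  have hp3 : 2 * P.eval n + 1 + 2 ^ S + 2 ≤ 2 ^ ((2 * d + 3) * S) := by
    have e1 : 2 ^ (2 * d * S) ≤ 2 ^ ((2 * d + 1) * S) :=
      Nat.pow_le_pow_right (by norm_num) (by nlinarith)
    have e2 : 2 ^ S ≤ 2 ^ ((2 * d + 1) * S) :=
      Nat.pow_le_pow_right (by norm_num) (by nlinarith)
    have e3 : 1 ≤ 2 ^ ((2 * d + 1) * S) := Nat.one_le_two_pow
    have e4 : 2 ^ ((2 * d + 3) * S) = 2 ^ ((2 * d + 1) * S) * 2 ^ (2 * S) := by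
      rw [← pow_add]; congr 1; ring
    have e5 : 6 ≤ 2 ^ (2 * S) := by
      calc 6 ≤ 2 ^ 3 := by norm_num
        _ ≤ 2 ^ (2 * S) := Nat.pow_le_pow_right (by norm_num) (by omega)
    rw [e4]
    nlinarith
  have hp4 : Q.eval (2 * P.eval n + 1 + 2 ^ S) ≤ 2 ^ ((2 * d + 3) * D * S) := by
    calc Q.eval (2 * P.eval n + 1 + 2 ^ S) ≤ (2 * P.eval n + 1 + 2 ^ S + 2) ^ D := hD _
      _ ≤ (2 ^ ((2 * d + 3) * S)) ^ D := Nat.pow_le_pow_left hp3 D
      _ = 2 ^ ((2 * d + 3) * D * S) := by rw [← pow_mul]; congr 1; ring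
  have hp5 : Q.eval (2 * P.eval n + 1 + 2 ^ S) + 1 ≤ 2 ^ ((2 * d + 3) * D * S + 1) := by
    have e6 : 1 ≤ 2 ^ ((2 * d + 3) * D * S) := Nat.one_le_two_pow
    have e7 : 2 ^ ((2 * d + 3) * D * S + 1) = 2 ^ ((2 * d + 3) * D * S) * 2 := pow_succ _ _
    rw [e7]
    generalize 2 ^ ((2 * d + 3) * D * S) = z at *
    generalize Q.eval (2 * P.eval n + 1 + 2 ^ S) = y at *
    omega
  have hp6 : M * S ≤ n := by
    have h6 : (S - 1) * (S - 1) = S * S - 2 * S + 1 := by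
      obtain ⟨T, rfl⟩ : ∃ T, S = T + 1 := ⟨S - 1, by omega⟩
      have e8 : (T + 1) * (T + 1) = T * T + 2 * T + 1 := by ring
      rw [e8]
      simp only [Nat.add_sub_cancel]
      have e10 : 1 ≤ T * T := Nat.mul_le_mul (show 1 ≤ T by omega) (show 1 ≤ T by omega)
      generalize T * T = z at e10
      omega
    have h7 : (M + 4) * S ≤ S * S := Nat.mul_le_mul_right S h3
    have h8 : (M + 4) * S = M * S + 4 * S := by ring
    omega
  calc 600 * (Q.eval (2 * P.eval n + 1 + 2 ^ S) + 1) ^ 2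
      ≤ 2 ^ 10 * (2 ^ ((2 * d + 3) * D * S + 1)) ^ 2 :=
        Nat.mul_le_mul (by norm_num) (Nat.pow_le_pow_left hp5 2)
    _ = 2 ^ (2 * ((2 * d + 3) * D) * S + 12) := by
        rw [← pow_mul, ← pow_add]
        congr 1
        ring
    _ ≤ 2 ^ (M * S) := by
        refine Nat.pow_le_pow_right (by norm_num) ?_
        have e9 : M * S = 2 * ((2 * d + 3) * D) * S + 12 * S := by rw [hM, add_mul]
        rw [e9]
        generalize 2 * ((2 * d + 3) * D) * S = z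
        clear hd hD
        omega
    _ ≤ 2 ^ n := Nat.pow_le_pow_right (by norm_num) hp6

/-- Polynomials in the size of the circuits are subexponential. -/
theorem num' (P Q : Polynomial ℕ) : ∃ n0, ∀ n ≥ n0,
    Q.eval (2 * P.eval n + 1 + 2 ^ (Nat.sqrt (n + 2) + 1)) ≤ 2 ^ n := by
  obtain ⟨n0, h⟩ := num P Q
  refine ⟨n0, fun n hn => le_trans ?_ (h n hn)⟩
  generalize Q.eval (2 * P.eval n + 1 + 2 ^ (Nat.sqrt (n + 2) + 1)) = z
  nlinarith [Nat.zero_le z]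

/-- The time bound `2 ^ (m ^ c)` is slow, if `c` is small. -/
theorem slow_rpow (P : Polynomial ℕ) : ∃ c : ℝ, 0 < c ∧ ∀ c' : ℝ, 0 < c' → c' ≤ c →
    Slow P (fun m => ⌊(2 : ℝ) ^ ((m : ℝ) ^ c')⌋₊) := by
  obtain ⟨d, hd⟩ := Pool.Agent.TH682.WC.poly_pow P
  refine ⟨1 / (2 * (d + 1)), by positivity, fun c hc0 hc n m hm => ?_⟩
  have h1 : (m : ℝ) ≤ ((n : ℝ) + 2) ^ (d + 1) := by
    have h2 : m ≤ (n + 2) ^ (d + 1) :=
      (hm.trans (hd n)).trans (Nat.pow_le_pow_right (by omega) (by omega))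
    exact_mod_cast h2
  have h2 : (m : ℝ) ^ c ≤ √((n : ℝ) + 2) := by
    have hb : (1 : ℝ) ≤ ((n : ℝ) + 2) ^ (d + 1) := one_le_pow₀ (by
      have : (0 : ℝ) ≤ n := Nat.cast_nonneg n
      linarith)
    calc (m : ℝ) ^ c ≤ (((n : ℝ) + 2) ^ (d + 1)) ^ c :=
          Real.rpow_le_rpow (Nat.cast_nonneg m) h1 hc0.le
      _ ≤ (((n : ℝ) + 2) ^ (d + 1)) ^ (1 / (2 * ((d : ℝ) + 1))) :=
          Real.rpow_le_rpow_of_exponent_le hb hc
      _ = √((n : ℝ) + 2) := by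
          rw [← Real.rpow_natCast, ← Real.rpow_mul (by positivity), Real.sqrt_eq_rpow]
          congr 1
          push_cast
          have : (d : ℝ) + 1 ≠ 0 := by positivity
          field_simp
  have h3 : √((n : ℝ) + 2) ≤ ((Nat.sqrt (n + 2) + 1 : ℕ) : ℝ) := by
    rw [Real.sqrt_le_left (by positivity)]
    have h4 : n + 2 ≤ (Nat.sqrt (n + 2) + 1) * (Nat.sqrt (n + 2) + 1) :=
      (Nat.lt_succ_sqrt (n + 2)).le
    rw [sq]
    exact_mod_cast h4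
  have h4 : (2 : ℝ) ^ ((m : ℝ) ^ c) ≤ ((2 ^ (Nat.sqrt (n + 2) + 1) : ℕ) : ℝ) := by
    calc (2 : ℝ) ^ ((m : ℝ) ^ c) ≤ (2 : ℝ) ^ (((Nat.sqrt (n + 2) + 1 : ℕ) : ℝ)) :=
          Real.rpow_le_rpow_of_exponent_le (by norm_num) (h2.trans h3)
      _ = ((2 ^ (Nat.sqrt (n + 2) + 1) : ℕ) : ℝ) := by
          rw [Real.rpow_natCast]
          push_cast
          rfl
  have h5 := Nat.floor_le_floor h4
  rwa [Nat.floor_natCast] at h5

end Pool.Agent.TH682.QU
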